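import Pool.Agent.Run7.h477.WC.Stm

set_option autoImplicit false

namespace Run7.h892.WC

open Run7.h477.WC Polynomial

universe u

lemma adjoin_top (C B : Type u) [CommRing C] [IsDomain C] [IsDiscreteValuationRing C] [CommRing B]
    [IsDomain B] [IsDiscreteValuationRing B] [Algebra C B] [Module.IsTorsionFree C B]
    [Module.Finite C B]
    (hres : ∀ b : B, ∃ c : C, b - algebraMap C B c ∈ IsLocalRing.maximalIdeal B) (t : B)
    (ht : Irreducible t) : Algebra.adjoin C {t} = ⊤ := by
  have hmax : IsLocalRing.maximalIdeal B = Ideal.span {t} :=
    (IsDiscreteValuationRing.irreducible_iff_uniformizer t).1 ht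
  obtain ⟨π, hπ⟩ := IsDiscreteValuationRing.exists_irreducible C
  have hπm : π ∈ IsLocalRing.maximalIdeal C := hπ.1
  have hinj : Function.Injective (algebraMap C B) := FaithfulSMul.algebraMap_injective C B
  have hπ0 : algebraMap C B π ≠ 0 := by
    intro h
    exact hπ.ne_zero (hinj (by rw [h, map_zero]))
  obtain ⟨e, he⟩ := IsDiscreteValuationRing.associated_pow_irreducible hπ0 ht
  obtain ⟨w, hw⟩ := he
  have hstep : ∀ n (b : B), ∃ c ∈ Algebra.adjoin C {t}, ∃ b', b = c + t ^ n * b' := by
    intro n
    induction n with
    | zero => intro b; exact ⟨0, Subalgebra.zero_mem _, b, by ring⟩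
    | succ n ih =>
      intro b
      obtain ⟨c, hc⟩ := hres b
      rw [hmax, Ideal.mem_span_singleton] at hc
      obtain ⟨b1, hb1⟩ := hc
      obtain ⟨c', hc', b', hb'⟩ := ih b1
      refine ⟨algebraMap C B c + t * c', Subalgebra.add_mem _ (Subalgebra.algebraMap_mem _ _)
        (Subalgebra.mul_mem _ (Algebra.subset_adjoin rfl) hc'), b', ?_⟩
      linear_combination hb1 + t * hb'
  have hle : (⊤ : Submodule C B) ≤ Subalgebra.toSubmodule (Algebra.adjoin C {t}) := by
    apply Submodule.le_of_le_smul_of_le_jacobson_bot (I := IsLocalRing.maximalIdeal C)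
      Module.Finite.fg_top
    · exact IsLocalRing.maximalIdeal_le_jacobson _
    · intro b _
      obtain ⟨c, hc, b', rfl⟩ := hstep e b
      apply Submodule.add_mem_sup hc
      have h1 : t ^ e * b' = π • ((w : B) * b') := by
        rw [Algebra.smul_def, ← hw]; ring
      rw [h1]
      exact Submodule.smul_mem_smul hπm trivial
  rw [eq_top_iff]
  intro b _
  exact hle (Submodule.mem_top)

theorem t_LB : S_LB.{u} := by
  classical
  intro C B _ _ _ _ _ _ _ _ _ H _ _ _ _ hG hres t ht
  have hadj := adjoin_top C B hres t ht
  refine ⟨hadj, ?_⟩
  have hinj : Function.Injective (algebraMap C B) := FaithfulSMul.algebraMap_injective C B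
  let := FractionRing.liftAlgebra C (FractionRing B)
  let := IsFractionRing.mulSemiringAction H B (FractionRing B)
  have hGK : IsGaloisGroup H (FractionRing C) (FractionRing B) :=
    IsGaloisGroup.to_isFractionRing H C B (FractionRing C) (FractionRing B)
  have hfd : FiniteDimensional (FractionRing C) (FractionRing B) :=
    IsGaloisGroup.finiteDimensional H (FractionRing C) (FractionRing B)
  have hgal : IsGalois (FractionRing C) (FractionRing B) :=
    IsGaloisGroup.isGalois H (FractionRing C) (FractionRing B)
  have hint : Algebra.IsIntegral C B := Algebra.IsIntegral.of_finite C B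
  have hic : IsIntegralClosure B C (FractionRing B) :=
    IsIntegralClosure.of_isIntegrallyClosed B C (FractionRing B)
  have hx : Algebra.adjoin (FractionRing C) {algebraMap B (FractionRing B) t} = ⊤ := by
    rw [← IntermediateField.adjoin_simple_toSubalgebra_of_isAlgebraic
      (Algebra.IsAlgebraic.isAlgebraic _)]
    have hB : ∀ b : B, algebraMap B (FractionRing B) b ∈
        IntermediateField.adjoin (FractionRing C) {algebraMap B (FractionRing B) t} := by
      intro b
      have hb : b ∈ Algebra.adjoin C {t} := by rw [hadj]; trivial
      induction hb using Algebra.adjoin_induction with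
      | mem x hx =>
        rw [Set.mem_singleton_iff.1 hx]
        exact IntermediateField.mem_adjoin_simple_self _ _
      | algebraMap r =>
        rw [← IsScalarTower.algebraMap_apply, IsScalarTower.algebraMap_apply C (FractionRing C)
          (FractionRing B)]
        exact IntermediateField.algebraMap_mem _ _
      | add x y _ _ hx hy => rw [map_add]; exact add_mem hx hy
      | mul x y _ _ hx hy => rw [map_mul]; exact mul_mem hx hy
    rw [eq_top_iff]
    intro x _
    obtain ⟨a, b, hb, rfl⟩ := IsFractionRing.div_surjective (A := B) x
    exact IntermediateField.div_mem (IntermediateField.adjoin (FractionRing C)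
      {algebraMap B (FractionRing B) t}) (hB a) (hB b)
  have hcond := conductor_mul_differentIdeal C (FractionRing C) (FractionRing B) t hx
  rw [conductor_eq_top_of_adjoin_eq_top hadj, Ideal.top_mul] at hcond
  rw [hcond]
  -- the minimal polynomial
  have htint : IsIntegral C t := hint.isIntegral t
  have hmonic := minpoly.monic htint
  have hsinj : Function.Injective (fun h : H => h • t) := by
    intro g g' hgg
    have hg : ∀ b : B, g • b = g' • b := by
      intro b
      have hb : b ∈ Algebra.adjoin C {t} := by rw [hadj]; trivial
      induction hb using Algebra.adjoin_induction with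
      | mem x hx => rw [Set.mem_singleton_iff.1 hx]; exact hgg
      | algebraMap r => rw [smul_algebraMap, smul_algebraMap]
      | add x y _ _ hx hy => rw [smul_add, smul_add, hx, hy]
      | mul x y _ _ hx hy => rw [smul_mul', smul_mul', hx, hy]
    have := hG.faithful
    exact FaithfulSMul.eq_of_smul_eq_smul hg
  have hroot : ∀ h : H, ((minpoly C t).map (algebraMap C B)).IsRoot (h • t) := by
    intro h
    rw [IsRoot.def, eval_map_algebraMap]
    have : aeval (h • t) (minpoly C t) = h • aeval t (minpoly C t) := by
      rw [aeval_eq_sum_range, aeval_eq_sum_range, Finset.smul_sum]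
      apply Finset.sum_congr rfl
      intro i _
      rw [Algebra.smul_def, Algebra.smul_def, smul_mul', smul_algebraMap, smul_pow']
    rw [this, minpoly.aeval, smul_zero]
  have hprod : (minpoly C t).map (algebraMap C B) = ∏ h : H, (X - Polynomial.C (h • t)) := by
    apply eq_of_monic_of_dvd_of_natDegree_le (monic_prod_X_sub_C _ _) (hmonic.map _)
    · have hne : (minpoly C t).map (algebraMap C B) ≠ 0 := (hmonic.map _).ne_zero
      have h2 : (Finset.univ.val.map fun h : H => h • t) ≤
          ((minpoly C t).map (algebraMap C B)).roots := by
        rw [Multiset.le_iff_subset (Finset.univ.nodup.map hsinj)]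
        intro x hx
        rw [Multiset.mem_map] at hx
        obtain ⟨h, _, rfl⟩ := hx
        rw [mem_roots hne]
        exact hroot h
      have h3 := (Multiset.prod_X_sub_C_dvd_iff_le_roots hne _).2 h2
      rw [Multiset.map_map] at h3
      exact h3
    · have h1 := Algebra.IsInvariant.charpoly_mem_lifts C B H t
      obtain ⟨q, hq1, hq2, hq3⟩ := lifts_and_natDegree_eq_and_monic h1
        (MulSemiringAction.monic_charpoly H t)
      have h2 : aeval t q = 0 := by
        rw [← eval_map_algebraMap, hq1, MulSemiringAction.eval_charpoly]
      have h3 := minpoly.min C t hq3 h2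
      rw [hmonic.natDegree_map]
      have h4 := natDegree_le_natDegree h3
      rw [hq2] at h4
      exact h4
  have hder : aeval t (derivative (minpoly C t)) = ∏ h ∈ Finset.univ.erase (1 : H), (t - h • t) := by
    rw [← eval_map_algebraMap, ← derivative_map, hprod,
      ← Finset.mul_prod_erase Finset.univ _ (Finset.mem_univ (1 : H)), one_smul, derivative_mul,
      derivative_sub, derivative_X, derivative_C, sub_zero, one_mul, eval_add, eval_mul, eval_sub,
      eval_X, eval_C, sub_self, zero_mul, add_zero, eval_prod]
    simp only [eval_sub, eval_X, eval_C]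
  rw [hder]

end Run7.h892.WC
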