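import Pool.Agent.Run7.h477.WC.Stm

set_option autoImplicit false

namespace Run7.h892.WC

open Run7.h477.WC Polynomial

universe u

lemma one_add_pow_exp {C : Type*} [CommRing C] (x : C) (m : ℕ) :
    ∃ r, (1 + x) ^ m = 1 + m * x + x ^ 2 * r := by
  induction m with
  | zero => exact ⟨0, by simp⟩
  | succ m ih =>
    obtain ⟨r, hr⟩ := ih
    refine ⟨m + r + x * r, ?_⟩
    rw [pow_succ, hr, Nat.cast_succ]
    ring

lemma isUnit_natCast {p : ℕ} (hp : p.Prime) {C : Type*} [CommRing C] (h0 : (p : C) = 0) (m : ℕ)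
    (hm : ¬ p ∣ m) : IsUnit (m : C) := by
  have h1 : IsCoprime (m : ℤ) (p : ℤ) :=
    Nat.isCoprime_iff_coprime.2 ((Nat.Prime.coprime_iff_not_dvd hp).2 hm).symm
  obtain ⟨a, b, hab⟩ := h1
  have h2 := congrArg (Int.cast : ℤ → C) hab
  push_cast at h2
  rw [h0, mul_zero, add_zero] at h2
  exact IsUnit.of_mul_eq_one (a : C) (by rw [mul_comm]; exact h2)

theorem t_LC : S_LC.{u} := by
  intro p hp C _ _ _ h0 h hord hres t ht hdvd z m c hm hc hz hzc
  have hchar : CharP C p := (CharP.charP_iff_prime_eq_zero hp.out).2 h0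
  have hm0 : m ≠ 0 := by
    rintro rfl
    exact hm (dvd_zero p)
  have hmax : IsLocalRing.maximalIdeal C = Ideal.span {t} :=
    (IsDiscreteValuationRing.irreducible_iff_uniformizer t).1 ht
  have hlocal : ∀ x y : C, IsUnit x → y ∈ IsLocalRing.maximalIdeal C → IsUnit (x + y) := by
    intro x y hx hy
    by_contra hcon
    have : x + y ∈ IsLocalRing.maximalIdeal C := hcon
    have h2 := Ideal.sub_mem _ this hy
    rw [add_sub_cancel_right] at h2
    exact h2 hx
  obtain ⟨δ₁, hδ₁⟩ : ∃ δ₁, h t - t = t * δ₁ := by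
    have := hres t
    rw [hmax, Ideal.mem_span_singleton] at this
    exact this
  have hht : h t = (1 + δ₁) * t := by linear_combination hδ₁
  have hit : ∀ k, ∃ v, (h^[k]) t = v * t ∧ v - (1 + δ₁) ^ k ∈ IsLocalRing.maximalIdeal C := by
    intro k
    induction k with
    | zero => exact ⟨1, by simp, by simp⟩
    | succ k ih =>
      obtain ⟨v, hv, hv2⟩ := ih
      refine ⟨h v * (1 + δ₁), ?_, ?_⟩
      · rw [Function.iterate_succ_apply', hv, map_mul, hht]; ring
      · have : h v * (1 + δ₁) - (1 + δ₁) ^ (k + 1) =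
            (h v - v) * (1 + δ₁) + (v - (1 + δ₁) ^ k) * (1 + δ₁) := by ring
        rw [this]
        exact Ideal.add_mem _ (Ideal.mul_mem_right _ _ (hres v)) (Ideal.mul_mem_right _ _ hv2)
  have hδm : δ₁ ∈ IsLocalRing.maximalIdeal C := by
    obtain ⟨v, hv, hv2⟩ := hit p
    rw [hord] at hv
    have hv1 : v = 1 := by
      apply mul_right_cancel₀ ht.ne_zero
      rw [← hv, one_mul]
    rw [hv1, add_pow_char, one_pow] at hv2
    have h3 : (1 : C) - (1 + δ₁ ^ p) = - δ₁ ^ p := by ring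
    rw [h3, neg_mem_iff] at hv2
    exact Ideal.IsPrime.mem_of_pow_mem inferInstance _ hv2
  obtain ⟨r, hr⟩ := one_add_pow_exp δ₁ m
  have hmu := isUnit_natCast hp.out h0 m hm
  have hcu := isUnit_natCast hp.out h0 c hc
  obtain ⟨ε, hε⟩ := hz.symm
  -- z = t ^ m * ε
  obtain ⟨κ, hκ⟩ := hdvd (ε : C)
  have hhe : IsUnit (h (ε : C)) := ε.isUnit.map h
  have hhz : h z = h ε * t ^ m * (1 + δ₁) ^ m := by
    rw [← hε, map_mul, map_pow, hht, mul_pow]; ring
  have e1 : h z - z = t ^ m * δ₁ * (h ε * (m + δ₁ * r) + t * κ) := by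
    rw [hhz, hr, ← hε]
    rw [hδ₁] at hκ
    linear_combination t ^ m * hκ
  have e2 : h z - z = t ^ m * (t ^ m * (-(c * ε * h ε * (1 + δ₁) ^ m))) := by
    have h4 : h z - z = -(c * z * h z) := by linear_combination (-1 : C) * hzc
    rw [h4, hhz, ← hε]
    ring
  have hu1 : IsUnit (h ε * (m + δ₁ * r) + t * κ) := by
    apply hlocal
    · apply hhe.mul
      apply hlocal _ _ hmu
      exact Ideal.mul_mem_right _ _ hδm
    · exact Ideal.mul_mem_right _ _ ht.1
  have hu2 : IsUnit (-((c : C) * (ε : C) * h (ε : C) * (1 + δ₁) ^ m)) := by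
    apply IsUnit.neg
    exact ((hcu.mul ε.isUnit).mul hhe).mul ((hlocal _ _ isUnit_one hδm).pow m)
  have e3 : δ₁ * (h ε * (m + δ₁ * r) + t * κ) = t ^ m * (-(c * ε * h ε * (1 + δ₁) ^ m)) := by
    apply mul_left_cancel₀ (pow_ne_zero m ht.ne_zero)
    rw [← e2, e1]; ring
  rw [hδ₁, pow_succ']
  apply Associated.mul_left
  obtain ⟨a, ha⟩ := hu1
  obtain ⟨b, hb⟩ := hu2
  rw [← ha, ← hb] at e3
  exact ⟨a * b⁻¹, by
    rw [Units.val_mul, ← mul_assoc, e3, mul_assoc, Units.mul_inv, mul_one]⟩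

end Run7.h892.WC
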