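import Pool.Agent.Run7.h477.WC.Stm

set_option autoImplicit false
set_option linter.unusedSectionVars false

namespace Run7.h892.WC

open Run7.h477.WC
open scoped Pointwise

universe u

section key

variable {B : Type u} [CommRing B] {G : Type} [Group G] [MulSemiringAction G B]

lemma isMaximal_smul (Q : Ideal B) [Q.IsMaximal] (g : G) : (g • Q).IsMaximal := by
  rw [Ideal.pointwise_smul_eq_comap]
  exact Ideal.comap_isMaximal_of_surjective _ (MulSemiringAction.toRingEquiv G B g).symm.surjective

/-- an element which is `1` at `Q` and `0` at the other conjugates -/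
lemma exists_theta [Finite G] (Q : Ideal B) [Q.IsMaximal] (N : ℕ) :
    ∃ θ : B, (∀ d : G, d • Q = Q → d • θ = θ) ∧ θ - 1 ∈ Q ^ N ∧
      ∀ g : G, g • Q ≠ Q → θ ∈ (g • Q) ^ N := by
  classical
  have := Fintype.ofFinite G
  have hmx : ∀ g : G, (g • Q).IsMaximal := isMaximal_smul Q
  have hcop : IsCoprime (Q ^ N) (∏ g ∈ Finset.univ.filter (fun g : G => g • Q ≠ Q),
      (g • Q) ^ N) := by
    apply IsCoprime.prod_right
    intro g hg
    have := hmx g
    exact (Ideal.isCoprime_of_isMaximal (Finset.mem_filter.1 hg).2.symm).pow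
  obtain ⟨i, hi, θ, hθ, hiθ⟩ := Ideal.isCoprime_iff_exists.1 hcop
  have h1 : θ - 1 ∈ Q ^ N := by
    have : θ - 1 = -i := by linear_combination hiθ
    rw [this]
    exact neg_mem hi
  have h2 : ∀ g : G, g • Q ≠ Q → θ ∈ (g • Q) ^ N := by
    intro g hg
    have h3 := Ideal.prod_le_inf hθ
    have h4 : (Finset.univ.filter (fun g : G => g • Q ≠ Q)).inf (fun g => (g • Q) ^ N) ≤
        (g • Q) ^ N := Finset.inf_le (Finset.mem_filter.2 ⟨Finset.mem_univ _, hg⟩)
    exact h4 h3
  let D := MulAction.stabilizer G Q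
  refine ⟨∏ d : D, d • θ, ?_, ?_, ?_⟩
  · intro d hd
    exact Finset.smul_prod_perm θ (⟨d, hd⟩ : D)
  · rw [← Ideal.Quotient.eq, map_prod, map_one]
    apply Finset.prod_eq_one
    intro d _
    rw [← map_one (Ideal.Quotient.mk (Q ^ N)), Ideal.Quotient.eq]
    have h4 : (d : G) • (θ - 1) ∈ (d : G) • (Q ^ N) :=
      Ideal.smul_mem_pointwise_smul_iff.2 h1
    rw [smul_pow', d.2, smul_sub, smul_one] at h4
    exact h4
  · intro g hg
    have : θ ∣ ∏ d : D, d • θ := by
      have h5 := Finset.dvd_prod_of_mem (fun d : D => d • θ) (Finset.mem_univ (1 : D))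
      simpa using h5
    obtain ⟨c, hc⟩ := this
    rw [hc]
    exact Ideal.mul_mem_right _ _ (h2 g hg)

variable {O : Type u} [CommRing O] [Algebra O B] [SMulCommClass G O B]

/-- approximation of elements fixed by the decomposition group -/
lemma approx [Finite G] [Algebra.IsInvariant O B G] (Q : Ideal B) [Q.IsMaximal] (N : ℕ) (Y : B)
    (hY : ∀ d : G, d • Q = Q → d • Y = Y) : ∃ Z : O, algebraMap O B Z - Y ∈ Q ^ N := by
  classical
  obtain ⟨θ, hθ1, hθ2, hθ3⟩ := exists_theta (G := G) Q N
  let D := MulAction.stabilizer G Q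
  have hw : ∀ d : G, d ∈ D → d • (θ * Y) = θ * Y := by
    intro d hd
    rw [smul_mul', hθ1 d hd, hY d hd]
  let F : G ⧸ D → B := Quotient.lift (fun g : G => g • (θ * Y)) (by
    intro a b hab
    have h1 : a⁻¹ * b ∈ D := QuotientGroup.leftRel_apply.1 hab
    have h2 := hw _ h1
    calc a • (θ * Y) = a • ((a⁻¹ * b) • (θ * Y)) := by rw [h2]
      _ = b • (θ * Y) := by rw [smul_smul, mul_inv_cancel_left])
  have hF : ∀ g : G, F (g : G ⧸ D) = g • (θ * Y) := fun g => rfl
  have : Fintype (G ⧸ D) := Fintype.ofFinite _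
  obtain ⟨Z, hZ⟩ := Algebra.IsInvariant.isInvariant (A := O) (G := G) (∑ q, F q) (by
    intro σ
    rw [Finset.smul_sum]
    have h1 : ∀ q : G ⧸ D, σ • F q = F (σ • q) := by
      intro q
      induction q using QuotientGroup.induction_on with
      | H g =>
        rw [MulAction.Quotient.smul_coe, smul_eq_mul, hF, hF, mul_smul]
    simp only [h1]
    exact Equiv.sum_comp (MulAction.toPerm σ) F)
  refine ⟨Z, ?_⟩
  rw [hZ, ← Finset.add_sum_erase Finset.univ F (Finset.mem_univ ((1 : G) : G ⧸ D)), hF, one_smul]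
  have h2 : θ * Y + ∑ q ∈ Finset.univ.erase ((1 : G) : G ⧸ D), F q - Y =
      (θ - 1) * Y + ∑ q ∈ Finset.univ.erase ((1 : G) : G ⧸ D), F q := by ring
  rw [h2]
  apply Ideal.add_mem _ (Ideal.mul_mem_right _ _ hθ2)
  apply Ideal.sum_mem
  intro q hq
  induction q using QuotientGroup.induction_on with
  | H g =>
    rw [hF, smul_mul']
    apply Ideal.mul_mem_right
    have hg : g⁻¹ • Q ≠ Q := by
      intro h
      apply (Finset.mem_erase.1 hq).1
      rw [QuotientGroup.eq]
      have h3 : g⁻¹ ∈ D := h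
      rw [mul_one]
      exact h3
    have h4 := hθ3 _ hg
    rw [← smul_pow'] at h4
    have h5 : g • θ ∈ g • (g⁻¹ • Q ^ N) := Ideal.smul_mem_pointwise_smul_iff.2 h4
    rwa [smul_inv_smul] at h5

theorem key [IsDomain O] [IsDiscreteValuationRing O] [IsDedekindDomain B] [Finite G]
    [Algebra.IsInvariant O B G] (hinj : Function.Injective (algebraMap O B)) (Q : Ideal B)
    [Q.IsMaximal] (π : O) (hπ : Irreducible π) (hQπ : algebraMap O B π ∈ Q) (Y : B) (e : O)
    (he : IsUnit e) (m p : ℕ) (hp : p.Prime) (hm : ¬ p ∣ m)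
    (hY : Y ^ p = algebraMap O B π ^ (m * (p - 1)) * (Y + algebraMap O B e))
    (hfix : ∀ d : G, d • Q = Q → d • Y = Y) : False := by
  classical
  have hm0 : 0 < m := by
    rcases Nat.eq_zero_or_pos m with h | h
    · exact absurd (h ▸ dvd_zero p) hm
    · exact h
  have hp1 : 0 < p - 1 := by have := hp.two_le; omega
  have hπB : algebraMap O B π ≠ 0 := fun h => hπ.ne_zero (hinj (by rw [h, map_zero]))
  have hQ0 : Q ≠ ⊥ := by
    rintro rfl
    exact hπB hQπ
  let A := Localization.AtPrime Q
  have hA : IsDiscreteValuationRing A :=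
    IsLocalization.AtPrime.isDiscreteValuationRing_of_dedekind_domain B hQ0 A
  have hjinj : Function.Injective (algebraMap B A) :=
    IsLocalization.injective A (Ideal.primeCompl_le_nonZeroDivisors Q)
  obtain ⟨ϖ, hϖ⟩ := IsDiscreteValuationRing.exists_irreducible A
  have hmax : IsLocalRing.maximalIdeal A = Ideal.span {ϖ} :=
    (IsDiscreteValuationRing.irreducible_iff_uniformizer ϖ).1 hϖ
  have hYQ : Y ∈ Q := by
    have : Y ^ p ∈ Q := by
      rw [hY]
      exact Ideal.mul_mem_right _ _ (Ideal.pow_mem_of_mem Q hQπ _ (Nat.mul_pos hm0 hp1))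
    exact Ideal.IsPrime.mem_of_pow_mem inferInstance _ this
  have hY0 : Y ≠ 0 := by
    rintro rfl
    rw [zero_pow hp.ne_zero, zero_add] at hY
    have h1 := mul_ne_zero (pow_ne_zero (m * (p - 1)) hπB) (he.map (algebraMap O B)).ne_zero
    exact h1 hY.symm
  have hmemA : ∀ b ∈ Q, algebraMap B A b ∈ IsLocalRing.maximalIdeal A := fun b hb =>
    (IsLocalization.AtPrime.to_map_mem_maximal_iff A Q b).2 hb
  have hunit : IsUnit (algebraMap B A (Y + algebraMap O B e)) := by
    by_contra hcon
    have h1 : algebraMap B A (Y + algebraMap O B e) ∈ IsLocalRing.maximalIdeal A := hcon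
    rw [map_add] at h1
    have h2 := Ideal.sub_mem _ h1 (hmemA Y hYQ)
    rw [add_sub_cancel_left] at h2
    exact h2 ((he.map (algebraMap O B)).map (algebraMap B A))
  obtain ⟨a, ha⟩ := IsDiscreteValuationRing.associated_pow_irreducible
    (x := algebraMap B A Y) (fun h => hY0 (hjinj (by rw [h, map_zero]))) hϖ
  obtain ⟨E, hE⟩ := IsDiscreteValuationRing.associated_pow_irreducible
    (x := algebraMap B A (algebraMap O B π)) (fun h => hπB (hjinj (by rw [h, map_zero]))) hϖ
  have hpow : ∀ i j : ℕ, Associated (ϖ ^ i) (ϖ ^ j) → i = j := by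
    intro i j hij
    exact le_antisymm ((pow_dvd_pow_iff hϖ.ne_zero hϖ.not_isUnit).1 hij.dvd)
      ((pow_dvd_pow_iff hϖ.ne_zero hϖ.not_isUnit).1 hij.symm.dvd)
  have hE0 : 0 < E := by
    rcases Nat.eq_zero_or_pos E with h | h
    · subst h
      rw [pow_zero] at hE
      exact absurd (associated_one_iff_isUnit.1 hE) (hmemA _ hQπ)
    · exact h
  have h1 : a * p = E * (m * (p - 1)) := by
    apply hpow
    rw [pow_mul, pow_mul]
    have h2 := congrArg (algebraMap B A) hY
    rw [map_pow, map_mul, map_pow] at h2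
    calc Associated ((ϖ ^ a) ^ p) (algebraMap B A Y ^ p) := ha.symm.pow_pow
      _ = _ := h2
      Associated _ (algebraMap B A (algebraMap O B π) ^ (m * (p - 1))) :=
        (associated_mul_unit_left _ _ hunit)
      Associated _ ((ϖ ^ E) ^ (m * (p - 1))) := hE.pow_pow
  obtain ⟨Z, hZ⟩ := approx (O := O) (G := G) Q (a + 1) Y hfix
  have h2 : algebraMap B A (algebraMap O B Z - Y) ∈ IsLocalRing.maximalIdeal A ^ (a + 1) := by
    rw [← IsLocalization.AtPrime.map_eq_maximalIdeal Q A, ← Ideal.map_pow]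
    exact Ideal.mem_map_of_mem _ hZ
  rw [hmax, Ideal.span_singleton_pow, Ideal.mem_span_singleton] at h2
  obtain ⟨r, hr⟩ := h2
  obtain ⟨u, hu⟩ := ha
  have h3 : algebraMap B A (algebraMap O B Z) * u = ϖ ^ a * (1 + ϖ * (r * u)) := by
    rw [map_sub] at hr
    linear_combination (u : A) * hr + hu
  have h4 : IsUnit (1 + ϖ * (r * (u : A))) := by
    by_contra hcon
    have h5 : 1 + ϖ * (r * (u : A)) ∈ IsLocalRing.maximalIdeal A := hcon
    have h6 : ϖ * (r * (u : A)) ∈ IsLocalRing.maximalIdeal A :=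
      Ideal.mul_mem_right _ _ hϖ.1
    have h7 := Ideal.sub_mem _ h5 h6
    rw [add_sub_cancel_right] at h7
    exact h7 isUnit_one
  have h5 : Associated (algebraMap B A (algebraMap O B Z)) (ϖ ^ a) :=
    calc Associated (algebraMap B A (algebraMap O B Z)) (algebraMap B A (algebraMap O B Z) * u) :=
        (associated_mul_unit_right _ _ u.isUnit)
      _ = _ := h3
      Associated _ (ϖ ^ a) := associated_mul_unit_left _ _ h4
  have hZ0 : Z ≠ 0 := by
    rintro rfl
    rw [map_zero, map_zero] at h5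
    exact pow_ne_zero a hϖ.ne_zero (h5.eq_zero_iff.1 rfl)
  obtain ⟨k, hk⟩ := IsDiscreteValuationRing.associated_pow_irreducible hZ0 hπ
  have h6 : Associated (algebraMap B A (algebraMap O B Z)) (ϖ ^ (E * k)) := by
    have h7 := (hk.map (algebraMap O B)).map (algebraMap B A)
    rw [map_pow, map_pow] at h7
    rw [pow_mul]
    exact h7.trans hE.pow_pow
  have h7 : a = E * k := hpow _ _ (h5.symm.trans h6)
  have h8 : k * p = m * (p - 1) := by
    apply Nat.eq_of_mul_eq_mul_left hE0
    rw [← h1, h7]; ring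
  have h9 : p ∣ m * (p - 1) := ⟨k, by rw [← h8]; ring⟩
  rcases (Nat.Prime.dvd_mul hp).1 h9 with h | h
  · exact hm h
  · have := Nat.le_of_dvd hp1 h
    omega

end key

/-- a proper subgroup of `(ℤ/p)²` is contained in the kernel of a nonzero character -/
lemma exists_char {p : ℕ} [hp : Fact p.Prime] (D : Subgroup (Pp p)) (hD : D ≠ ⊤) :
    ∃ a : ZMod p × ZMod p, a ≠ 0 ∧ ∀ σ ∈ D, chi a σ = 0 := by
  let D' : AddSubgroup (ZMod p × ZMod p) :=
    { carrier := {v | Multiplicative.ofAdd v ∈ D}
      zero_mem' := D.one_mem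
      add_mem' := fun {a b} ha hb => D.mul_mem ha hb
      neg_mem' := fun {a} ha => D.inv_mem ha }
  have hmemD : ∀ v, v ∈ D' ↔ Multiplicative.ofAdd v ∈ D := fun v => Iff.rfl
  let S := AddSubgroup.toZModSubmodule p D'
  have hS : S < ⊤ := by
    rw [lt_top_iff_ne_top]
    intro h
    apply hD
    rw [eq_top_iff]
    intro σ _
    have : Multiplicative.toAdd σ ∈ S := by rw [h]; trivial
    exact this
  obtain ⟨f, hf0, hf⟩ := Submodule.exists_le_ker_of_lt_top S hS
  have hfv : ∀ v, f v = f (1, 0) * v.1 + f (0, 1) * v.2 := by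
    intro v
    have : v = v.1 • ((1 : ZMod p), (0 : ZMod p)) + v.2 • ((0 : ZMod p), (1 : ZMod p)) := by
      ext <;> simp
    conv_lhs => rw [this]
    rw [map_add, map_smul, map_smul, smul_eq_mul, smul_eq_mul]
    ring
  refine ⟨(f (1, 0), f (0, 1)), ?_, ?_⟩
  · intro h
    apply hf0
    ext
    · simpa using congrArg Prod.fst h
    · simpa using congrArg Prod.snd h
  · intro σ hσ
    have h1 : Multiplicative.toAdd σ ∈ S := hσ
    have h2 := hf h1
    rw [LinearMap.mem_ker, hfv] at h2
    exact h2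

theorem t_LT : S_LT.{u} := by
  classical
  intro p hp O F L _ _ _ _ _ _ _ _ _ _ hac _ hG hp0 π hπ m hm
  have hcF : SMulCommClass (Pp p) F L := hG.commutes
  have hcO : SMulCommClass (Pp p) O L := by
    constructor
    intro g o x
    rw [← algebraMap_smul F o x, smul_comm, algebraMap_smul]
  have hfd : FiniteDimensional F L := IsGaloisGroup.finiteDimensional (Pp p) F L
  have hgal : IsGalois F L := IsGaloisGroup.isGalois (Pp p) F L
  let B := integralClosure O L
  have hfrac : IsFractionRing B L := integralClosure.isFractionRing_of_finite_extension F L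
  have hded : IsDedekindDomain B := integralClosure.isDedekindDomain O F L
  have hGB : IsGaloisGroup (Pp p) O B := IsGaloisGroup.of_isFractionRing (Pp p) O B F L
  have hinv : Algebra.IsInvariant O B (Pp p) := hGB.isInvariant
  have hcB : SMulCommClass (Pp p) O B := inferInstance
  have hOL : Function.Injective (algebraMap O L) := by
    rw [IsScalarTower.algebraMap_eq O F L]
    exact (algebraMap F L).injective.comp (IsFractionRing.injective O F)
  have hinjB : Function.Injective (algebraMap O B) := by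
    intro x y hxy
    apply hOL
    exact congrArg (algebraMap B L) hxy
  have hunder : ∀ Q : Ideal B, Q.IsMaximal → Ideal.under O Q = IsLocalRing.maximalIdeal O := by
    intro Q hQ
    exact IsLocalRing.eq_maximalIdeal (Ideal.isMaximal_comap_of_isIntegral_of_isMaximal Q)
  have hπQ : ∀ Q : Ideal B, Q.IsMaximal → algebraMap O B π ∈ Q := by
    intro Q hQ
    have h1 : π ∈ Ideal.under O Q := by
      rw [hunder Q hQ]; exact hπ.1
    exact h1
  -- the stabilizer is everything
  have hstab : ∀ Q : Ideal B, Q.IsMaximal → MulAction.stabilizer (Pp p) Q = ⊤ := by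
    intro Q hQ
    by_contra hD
    obtain ⟨a, ha, hker⟩ := exists_char _ hD
    obtain ⟨hma, y, f, e, he, hy, hyf, hfe⟩ := hm a ha
    have hm0 : 0 < m a := by
      rcases Nat.eq_zero_or_pos (m a) with h | h
      · exact absurd (h ▸ dvd_zero p) hma
      · exact h
    have hp1 : 0 < p - 1 := by have := hp.out.two_le; omega
    set c := algebraMap O L π with hc
    have hfe' : algebraMap F L f * c ^ m a = algebraMap O L e := by
      rw [hc, IsScalarTower.algebraMap_apply O F L, ← map_pow, ← map_mul, hfe,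
        ← IsScalarTower.algebraMap_apply]
    have hYeq : (c ^ m a * y) ^ p = c ^ (m a * (p - 1)) * (c ^ m a * y + algebraMap O L e) := by
      have h1 : y ^ p = y + algebraMap F L f := by linear_combination hyf
      have h2 : c ^ (m a * p) = c ^ (m a * (p - 1)) * c ^ m a := by
        rw [← pow_add]
        congr 1
        obtain ⟨q, hq⟩ : ∃ q, p = q + 1 := ⟨p - 1, by omega⟩
        rw [hq]
        simp only [Nat.add_sub_cancel]
        ring
      rw [mul_pow, ← pow_mul, h1, h2, ← hfe']
      ring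
    have hYint : IsIntegral O (c ^ m a * y) := by
      refine ⟨Polynomial.X ^ p - (Polynomial.C (π ^ (m a * (p - 1))) * Polynomial.X +
        Polynomial.C (π ^ (m a * (p - 1)) * e)), Polynomial.monic_X_pow_sub ?_, ?_⟩
      · refine lt_of_le_of_lt Polynomial.degree_linear_le ?_
        exact_mod_cast hp.out.one_lt
      · rw [Polynomial.eval₂_sub, Polynomial.eval₂_pow, Polynomial.eval₂_X, hYeq,
          Polynomial.eval₂_add, Polynomial.eval₂_mul, Polynomial.eval₂_C, Polynomial.eval₂_X,
          Polynomial.eval₂_C, map_mul, map_pow]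
        ring
    let Y : B := ⟨c ^ m a * y, hYint⟩
    apply key (O := O) (B := B) (G := Pp p) hinjB Q π hπ (hπQ Q hQ) Y e he (m a) p hp.out hma
    · apply Subtype.ext
      exact hYeq
    · intro d hd
      apply Subtype.ext
      change d • (c ^ m a * y) = c ^ m a * y
      rw [smul_mul', smul_pow', hc, smul_algebraMap, hy, hker d hd, ZMod.val_zero, Nat.cast_zero,
        add_zero]
  obtain ⟨Q, hQ⟩ := Ideal.exists_maximal B
  have hloc : IsLocalRing B := by
    apply IsLocalRing.of_unique_max_ideal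
    refine ⟨Q, hQ, fun Q' hQ' => ?_⟩
    have hQ1 : Ideal.IsMaximal Q' := hQ'
    obtain ⟨g, hg⟩ := Algebra.IsInvariant.exists_smul_of_under_eq O B (Pp p) Q Q'
      ((hunder Q hQ).trans (hunder Q' hQ1).symm)
    have h1 : g ∈ MulAction.stabilizer (Pp p) Q := by rw [hstab Q hQ]; trivial
    rw [hg]
    exact h1
  refine ⟨hloc, ?_⟩
  intro b
  have hmxQ := IsLocalRing.maximalIdeal.isMaximal B
  have hle : IsLocalRing.maximalIdeal O ≤ (IsLocalRing.maximalIdeal B).comap (algebraMap O B) := by
    have := hunder _ hmxQ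
    rw [← this]
  let f : IsLocalRing.ResidueField O →+* (B ⧸ IsLocalRing.maximalIdeal B) :=
    Ideal.quotientMap (IsLocalRing.maximalIdeal B) (algebraMap O B) hle
  have hf : f.IsIntegral := by
    intro x
    obtain ⟨x, rfl⟩ := Ideal.Quotient.mk_surjective x
    obtain ⟨q, hq, hq2⟩ := (Algebra.IsIntegral.isIntegral (R := O) x)
    refine ⟨q.map (IsLocalRing.residue O), hq.map _, ?_⟩
    rw [Polynomial.eval₂_map]
    have h1 : f.comp (IsLocalRing.residue O) =
        (Ideal.Quotient.mk (IsLocalRing.maximalIdeal B)).comp (algebraMap O B) := by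
      ext z
      rfl
    rw [h1, ← Polynomial.hom_eval₂, hq2, map_zero]
  obtain ⟨c, hc⟩ := (IsAlgClosed.ringHom_bijective_of_isIntegral f hf).2
    (Ideal.Quotient.mk (IsLocalRing.maximalIdeal B) b)
  obtain ⟨c, rfl⟩ := IsLocalRing.residue_surjective c
  refine ⟨c, ?_⟩
  rw [← Ideal.Quotient.eq, ← hc]
  rfl

end Run7.h892.WC
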