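import Pool.Agent.Run7.h477.WC.Stm

set_option autoImplicit false

namespace Run7.h892.WC

open Run7.h477.WC Polynomial

universe u

/-- a rational function whose Artin-Schreier image is a polynomial is a polynomial -/
lemma exists_poly_of_AS (p : ℕ) [hp : Fact p.Prime] (K : Type u) [Field K] (g : RatFunc K) (h : K[X])
    (hg : g ^ p - g = algebraMap K[X] (RatFunc K) h) :
    ∃ g' : K[X], algebraMap K[X] (RatFunc K) g' = g := by
  apply IsIntegrallyClosed.isIntegral_iff.1
  have hp2 := hp.out.two_le
  refine ⟨X ^ p - (X + C h), monic_X_pow_sub ?_, ?_⟩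
  · rw [degree_X_add_C]
    exact_mod_cast hp2
  · rw [eval₂_sub, eval₂_pow, eval₂_add, eval₂_X, eval₂_C, ← sub_sub, hg, sub_self]

theorem t_UNI : S_UNI.{u} := by
  intro p hp K _ _ P _ _ c χ y y' h h' hy hy' he he'
  have hG := c.galois
  -- y' - y is invariant
  obtain ⟨g, hg⟩ : ∃ g : RatFunc K, algebraMap (RatFunc K) c.L g = y' - y := by
    have := hG.isInvariant.isInvariant (y' - y) (fun σ => by
      rw [smul_sub, hy, hy']; ring)
    exact this
  have hchar : CharP c.L p := by
    have : CharP (RatFunc K) p := charP_of_injective_algebraMap (algebraMap K (RatFunc K)).injective p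
    exact charP_of_injective_algebraMap (algebraMap (RatFunc K) c.L).injective p
  have h1 : g ^ p - g = algebraMap K[X] (RatFunc K) (h' - h) := by
    apply (algebraMap (RatFunc K) c.L).injective
    rw [map_sub, map_pow, hg, ← IsScalarTower.algebraMap_apply, map_sub, ← he, ← he',
      sub_pow_char]
    ring
  obtain ⟨g', rfl⟩ := exists_poly_of_AS p K g _ h1
  refine ⟨g', ?_⟩
  rw [← map_pow, ← map_sub] at h1
  have := IsFractionRing.injective K[X] (RatFunc K) h1
  linear_combination (-1 : K[X]) * this

end Run7.h892.WC
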